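import Mathlib

/-!
Free filters on the natural numbers, statistical measures, poor and conglomerated filters, and a
poor free filter which is not generated by a statistical measure.

The construction is a countable version of Gaifman's example of a Boolean algebra with the countable
chain condition and without a strictly positive finitely additive measure.
-/

namespace Pool.Agent.X215.StatFilters

open Filter Topology Set

/-! ### Definitions -/

/-- A filter on `ℕ` is free: it is proper and contains every cofinite set. -/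
def IsFree (𝔉 : Filter ℕ) : Prop := 𝔉.NeBot ∧ ∀ A : Set ℕ, Aᶜ.Finite → A ∈ 𝔉

/-- The ideal of a filter: the complements of its members. -/
def ideal (𝔉 : Filter ℕ) : Set (Set ℕ) := {A | Aᶜ ∈ 𝔉}

/-- The grill of a filter: the sets not in the ideal. -/
def grill (𝔉 : Filter ℕ) : Set (Set ℕ) := {A | A ∉ ideal 𝔉}

/-- A filter is poor: every family of members of the grill with pairwise intersections in the
ideal is countable. -/
def Poor (𝔉 : Filter ℕ) : Prop :=
  ∀ 𝒜 : Set (Set ℕ), 𝒜 ⊆ grill 𝔉 → (∀ A ∈ 𝒜, ∀ B ∈ 𝒜, A ≠ B → A ∩ B ∈ ideal 𝔉) → 𝒜.Countable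

/-- A filter is conglomerated: there are pairwise disjoint members `D n` of the ideal such that
the union of any infinite subfamily lies in the grill. -/
def Conglomerated (𝔉 : Filter ℕ) : Prop :=
  ∃ D : ℕ → Set ℕ, (∀ n, D n ∈ ideal 𝔉) ∧ (∀ m n, m ≠ n → Disjoint (D m) (D n)) ∧
    ∀ M : Set ℕ, M.Infinite → (⋃ n ∈ M, D n) ∈ grill 𝔉

/-- A statistical measure: a nonnegative finitely additive set function on all subsets of `ℕ`
with total mass one, vanishing on singletons. -/
structure IsStatMeasure (μ : Set ℕ → ℝ) : Prop where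
  nonneg : ∀ A, 0 ≤ μ A
  add : ∀ A B, Disjoint A B → μ (A ∪ B) = μ A + μ B
  univ : μ Set.univ = 1
  singleton : ∀ k : ℕ, μ {k} = 0

/-- `𝔉` is generated by a statistical measure. -/
def GeneratedByMeasure (𝔉 : Filter ℕ) : Prop :=
  ∃ μ : Set ℕ → ℝ, IsStatMeasure μ ∧ ∀ A : Set ℕ, A ∈ 𝔉 ↔ μ A = 1

/-! ### Finitely additive integration -/

namespace IsStatMeasure

variable {μ : Set ℕ → ℝ} (hμ : IsStatMeasure μ)
include hμ

theorem empty : μ ∅ = 0 := by
  have := hμ.add ∅ ∅ (by simp)
  simp only [Set.union_self] at this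
  linarith

theorem mono {A B : Set ℕ} (h : A ⊆ B) : μ A ≤ μ B := by
  have := hμ.add A (B \ A) Set.disjoint_sdiff_right
  rw [Set.union_sdiff_cancel h] at this
  linarith [hμ.nonneg (B \ A)]

theorem compl (A : Set ℕ) : μ Aᶜ = 1 - μ A := by
  have := hμ.add A Aᶜ disjoint_compl_right
  rw [Set.union_compl_self, hμ.univ] at this
  linarith

theorem union_le (A B : Set ℕ) : μ (A ∪ B) ≤ μ A + μ B := by
  have := hμ.add A (B \ A) Set.disjoint_sdiff_right
  rw [Set.union_sdiff_self] at this
  linarith [hμ.mono (Set.sdiff_subset : B \ A ⊆ B)]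

theorem sum_atoms {κ : Type*} [DecidableEq κ] (g : ℕ → κ) (B : Set ℕ) (P : Finset κ) :
    μ (B ∩ {n | g n ∈ P}) = ∑ K ∈ P, μ (B ∩ {n | g n = K}) := by
  induction P using Finset.induction_on with
  | empty => simp [hμ.empty]
  | insert K P hK ih =>
    rw [Finset.sum_insert hK, ← ih, ← hμ.add]
    · congr 1
      ext n
      simp only [Set.mem_inter_iff, Set.mem_ofPred_eq, Finset.mem_insert, Set.mem_union]
      tauto
    · rw [Set.disjoint_left]
      rintro n ⟨-, h1⟩ ⟨-, h2⟩
      have h1' : g n = K := h1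
      have h2' : g n ∈ P := h2
      rw [h1'] at h2'
      exact hK h2'

/-- If, off a null set, every point lies in at most `c` of the sets `A i`, then the sum of the
measures is at most `c`. -/
theorem sum_le {ι : Type*} (s : Finset ι) (A : ι → Set ℕ) (c : ℕ) (N : Set ℕ) (hN : μ N = 0)
    (h : ∀ n, n ∉ N → ∀ t ⊆ s, (∀ i ∈ t, n ∈ A i) → t.card ≤ c) :
    ∑ i ∈ s, μ (A i) ≤ c := by
  classical
  let g : ℕ → Finset ι := fun n => s.filter (fun i => n ∈ A i)
  have hg : ∀ n, g n ∈ s.powerset := fun n => Finset.mem_powerset.2 (Finset.filter_subset _ _)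
  have hall : ∀ B : Set ℕ, μ B = ∑ K ∈ s.powerset, μ (B ∩ {n | g n = K}) := by
    intro B
    rw [← hμ.sum_atoms g B s.powerset]
    congr 1
    ext n
    simp only [Set.mem_inter_iff, Set.mem_ofPred_eq, hg n, and_true]
  calc ∑ i ∈ s, μ (A i) = ∑ i ∈ s, ∑ K ∈ s.powerset, μ (A i ∩ {n | g n = K}) :=
        Finset.sum_congr rfl fun i _ => hall (A i)
    _ = ∑ K ∈ s.powerset, ∑ i ∈ s, μ (A i ∩ {n | g n = K}) := Finset.sum_comm
    _ ≤ ∑ K ∈ s.powerset, (c : ℝ) * μ (Set.univ ∩ {n | g n = K}) := by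
        apply Finset.sum_le_sum
        intro K hK
        rw [Set.univ_inter]
        by_cases hz : μ {n | g n = K} = 0
        · rw [hz, mul_zero]
          apply Finset.sum_nonpos
          intro i _
          rw [← hz]
          exact hμ.mono Set.inter_subset_right
        · obtain ⟨n, hn, hnN⟩ : ∃ n, g n = K ∧ n ∉ N := by
            by_contra hcon
            push Not at hcon
            apply hz
            apply le_antisymm _ (hμ.nonneg _)
            rw [← hN]
            exact hμ.mono hcon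
          have hcard : K.card ≤ c := by
            apply h n hnN K (Finset.mem_powerset.1 hK)
            intro i hi
            rw [← hn] at hi
            exact (Finset.mem_filter.1 hi).2
          have h1 : ∑ i ∈ s, μ (A i ∩ {n | g n = K}) = ∑ i ∈ K, μ {n | g n = K} := by
            rw [← Finset.sum_subset (Finset.mem_powerset.1 hK)]
            · apply Finset.sum_congr rfl
              intro i hi
              congr 1
              ext m
              simp only [Set.mem_inter_iff, Set.mem_ofPred_eq, and_iff_right_iff_imp]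
              intro hm
              rw [← hm] at hi
              exact (Finset.mem_filter.1 hi).2
            · intro i his hiK
              have : A i ∩ {n | g n = K} = ∅ := by
                ext m
                simp only [Set.mem_inter_iff, Set.mem_ofPred_eq, Set.mem_empty_iff_false, iff_false,
                  not_and]
                intro hm hgm
                apply hiK
                rw [← hgm]
                exact Finset.mem_filter.2 ⟨his, hm⟩
              rw [this, hμ.empty]
          rw [h1, Finset.sum_const, nsmul_eq_mul]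
          exact mul_le_mul_of_nonneg_right (by exact_mod_cast hcard) (hμ.nonneg _)
    _ = (c : ℝ) * μ Set.univ := by rw [← Finset.mul_sum, ← hall]
    _ = c := by rw [hμ.univ, mul_one]

end IsStatMeasure

/-! ### The combinatorics of the example -/

/-- The Baire space. -/
abbrev X : Type := ℕ → ℕ

noncomputable local instance : DecidableEq X := Classical.decEq X

/-- The restriction of `x` to its first `n` values. -/
def pre (n : ℕ) (x : X) : List ℕ := (List.range n).map x

theorem pre_eq_iff {n : ℕ} {x y : X} : pre n x = pre n y ↔ ∀ i < n, x i = y i := by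
  simp [pre]

/-- The bound attached to a word. -/
def cc (s : List ℕ) : ℕ := Encodable.encode s + 1

/-- The set of `k < (cc s)²` such that some member of `F` extends `s ⌢ k`. -/
def hits (s : List ℕ) (F : Finset X) : Finset ℕ :=
  (F.filter (fun x => pre s.length x = s ∧ x s.length < cc s ^ 2)).image (fun x => x s.length)

/-- The family of good finite sets. -/
def GoodF (F : Finset X) : Prop := ∀ s, (hits s F).card ≤ cc s

theorem hits_card_le (s : List ℕ) (F : Finset X) : (hits s F).card ≤ F.card :=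
  Finset.card_image_le.trans (Finset.card_filter_le _ _)

theorem mem_hits {s : List ℕ} {F : Finset X} {k : ℕ} :
    k ∈ hits s F ↔ ∃ x ∈ F, pre s.length x = s ∧ x s.length < cc s ^ 2 ∧ x s.length = k := by
  simp only [hits, Finset.mem_image, Finset.mem_filter]
  constructor
  · rintro ⟨x, ⟨h1, h2, h3⟩, h4⟩
    exact ⟨x, h1, h2, h3, h4⟩
  · rintro ⟨x, h1, h2, h3, h4⟩
    exact ⟨x, ⟨h1, h2, h3⟩, h4⟩

theorem hits_mono_of_image {s : List ℕ} {N : ℕ} (hN : s.length < N) {F G : Finset X}
    (h : F.image (pre N) ⊆ G.image (pre N)) : hits s F ⊆ hits s G := by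
  intro k hk
  rw [mem_hits] at hk ⊢
  obtain ⟨x, hx, h1, h2, h3⟩ := hk
  obtain ⟨y, hy, hxy⟩ := Finset.mem_image.1 (h (Finset.mem_image_of_mem _ hx))
  rw [pre_eq_iff] at hxy
  have h4 : y s.length = x s.length := hxy _ hN
  have h5 : pre s.length y = pre s.length x := pre_eq_iff.2 fun i hi => hxy i (hi.trans hN)
  exact ⟨y, hy, h5.trans h1, by rw [h4]; exact h2, h4.trans h3⟩

theorem hits_union (s : List ℕ) (F G : Finset X) : hits s (F ∪ G) = hits s F ∪ hits s G := by
  ext k
  simp only [Finset.mem_union, mem_hits]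
  constructor
  · rintro ⟨x, hx | hx, h⟩
    · exact Or.inl ⟨x, hx, h⟩
    · exact Or.inr ⟨x, hx, h⟩
  · rintro (⟨x, hx, h⟩ | ⟨x, hx, h⟩)
    · exact ⟨x, Or.inl hx, h⟩
    · exact ⟨x, Or.inr hx, h⟩

theorem goodF_singleton (t : X) : GoodF {t} := by
  intro s
  refine (hits_card_le _ _).trans ?_
  rw [Finset.card_singleton]
  exact Nat.succ_le_succ (Nat.zero_le _)

/-- The pair coded by `n`. -/
noncomputable def pt (n : ℕ) : ℕ × Finset (List ℕ) :=
  (Denumerable.eqv (ℕ × Finset (List ℕ))).symm n

theorem exists_pt (N : ℕ) (d : Finset (List ℕ)) : ∃ n, pt n = (N, d) :=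
  ⟨Denumerable.eqv _ (N, d), Equiv.symm_apply_apply _ _⟩

/-- `n` codes an admissible pair. -/
def Adm (n : ℕ) : Prop := ∃ F : Finset X, GoodF F ∧ F.image (pre (pt n).1) = (pt n).2

/-- The basic sets. -/
def bas (S T : Finset X) : Set ℕ :=
  {n | Adm n ∧ (∀ t ∈ S, pre (pt n).1 t ∈ (pt n).2) ∧ ∀ t ∈ T, pre (pt n).1 t ∉ (pt n).2}

/-- The starting ideal. -/
def J0 : Set (Set ℕ) := {B | ∃ N, ∀ n ∈ B, (pt n).1 < N ∨ ¬ Adm n}

theorem eventually_separated {S T : Finset X} (h : Disjoint S T) :
    ∀ᶠ N in atTop, Disjoint (S.image (pre N)) (T.image (pre N)) := by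
  have h1 : ∀ᶠ N in atTop, ∀ x ∈ S, ∀ y ∈ T, pre N x ≠ pre N y := by
    rw [Filter.eventually_all_finset]
    intro x hx
    rw [Filter.eventually_all_finset]
    intro y hy
    have hxy : x ≠ y := fun h' => (Finset.disjoint_left.1 h hx) (h' ▸ hy)
    obtain ⟨i, hi⟩ := Function.ne_iff.1 hxy
    filter_upwards [Filter.eventually_gt_atTop i] with N hN heq
    exact hi (pre_eq_iff.1 heq i hN)
  filter_upwards [h1] with N hN
  rw [Finset.disjoint_left]
  intro w hw hw'
  obtain ⟨x, hx, rfl⟩ := Finset.mem_image.1 hw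
  obtain ⟨y, hy, hyx⟩ := Finset.mem_image.1 hw'
  exact hN x hx y hy hyx.symm

theorem bas_notMem_J0 {S T : Finset X} (hS : GoodF S) (h : Disjoint S T) : bas S T ∉ J0 := by
  rintro ⟨N0, hN0⟩
  obtain ⟨N, hN1, hN2⟩ :=
    ((eventually_separated h).and (Filter.eventually_ge_atTop N0)).exists
  obtain ⟨n, hn⟩ := exists_pt N (S.image (pre N))
  have h1 : (pt n).1 = N := by rw [hn]
  have h2 : (pt n).2 = S.image (pre N) := by rw [hn]
  have hadm : Adm n := ⟨S, hS, by rw [h1, h2]⟩
  have hmem : n ∈ bas S T := by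
    refine ⟨hadm, fun t ht => ?_, fun t ht => ?_⟩
    · rw [h1, h2]
      exact Finset.mem_image_of_mem _ ht
    · rw [h1, h2]
      intro h4
      exact Finset.disjoint_left.1 hN1 h4 (Finset.mem_image_of_mem _ ht)
  rcases hN0 n hmem with h3 | h3
  · rw [h1] at h3
    omega
  · exact h3 hadm

/-- A point coding an admissible pair of high level lies in few of the sets `bas {t} ∅` for `t`
in different parts of one word. -/
theorem adm_bound {n : ℕ} (hn : Adm n) {s : List ℕ} (hs : s.length < (pt n).1) {F : Finset X}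
    (hF : ∀ t ∈ F, pre (pt n).1 t ∈ (pt n).2) : (hits s F).card ≤ cc s := by
  obtain ⟨G, hG, hGn⟩ := hn
  refine (Finset.card_le_card (hits_mono_of_image hs (F := F) (G := G) ?_)).trans (hG s)
  rw [hGn]
  intro w hw
  obtain ⟨t, ht, rfl⟩ := Finset.mem_image.1 hw
  exact hF t ht

theorem J0_finite {B : Set ℕ} (hB : B.Finite) : B ∈ J0 := by
  obtain ⟨M, hM⟩ := (hB.image (fun n => (pt n).1)).bddAbove
  exact ⟨M + 1, fun n hn => Or.inl (Nat.lt_succ_of_le (hM ⟨n, hn, rfl⟩))⟩

theorem exists_length_bound (m : ℕ) : ∃ N, ∀ s : List ℕ, cc s < m → s.length < N := by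
  have h1 : {s : List ℕ | cc s < m}.Finite := by
    have h2 : Function.Injective cc := fun a b h =>
      Encodable.encode_injective (Nat.succ_injective h)
    exact (Set.finite_Iio m).preimage h2.injOn
  obtain ⟨M, hM⟩ := (h1.image List.length).bddAbove
  exact ⟨M + 1, fun s hs => Nat.lt_succ_of_le (hM ⟨s, hs, rfl⟩)⟩

/-- The type of a pair of finite sets. -/
abbrev Ty : Type := ℕ × ℕ × Finset (List ℕ) × Finset (List ℕ)

/-- `(S, T)` has type `τ`. -/
def HasType (S T : Finset X) (τ : Ty) : Prop :=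
  S.card = τ.1 ∧ (∀ s : List ℕ, cc s < 2 * τ.1 → s.length < τ.2.1) ∧
    S.image (pre τ.2.1) = τ.2.2.1 ∧ T.image (pre τ.2.1) = τ.2.2.2 ∧ Disjoint τ.2.2.1 τ.2.2.2

theorem exists_type {S T : Finset X} (h : Disjoint S T) : ∃ τ, HasType S T τ := by
  obtain ⟨N0, hN0⟩ := exists_length_bound (2 * S.card)
  obtain ⟨N, hN1, hN2⟩ :=
    ((eventually_separated h).and (Filter.eventually_ge_atTop N0)).exists
  exact ⟨(S.card, N, S.image (pre N), T.image (pre N)), rfl,
    fun s hs => (hN0 s hs).trans_le hN2, rfl, rfl, hN1⟩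

theorem type_compat {S₁ T₁ S₂ T₂ : Finset X} {τ : Ty} (h₁ : GoodF S₁)
    (t₁ : HasType S₁ T₁ τ) (t₂ : HasType S₂ T₂ τ) :
    GoodF (S₁ ∪ S₂) ∧ Disjoint (S₁ ∪ S₂) (T₁ ∪ T₂) := by
  obtain ⟨a1, a2, a3, a4, a5⟩ := t₁
  obtain ⟨b1, b2, b3, b4, b5⟩ := t₂
  constructor
  · intro s
    by_cases hs : cc s < 2 * τ.1
    · have hlen := a2 s hs
      have hsub : hits s S₂ ⊆ hits s S₁ :=
        hits_mono_of_image hlen (by rw [a3, b3])
      rw [hits_union, Finset.union_eq_left.2 hsub]
      exact h₁ s
    · refine (hits_card_le _ _).trans ((Finset.card_union_le _ _).trans ?_)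
      rw [a1, b1]
      omega
  · rw [Finset.disjoint_left]
    intro x hx hx'
    have h1 : pre τ.2.1 x ∈ τ.2.2.1 := by
      rcases Finset.mem_union.1 hx with h | h
      · rw [← a3]; exact Finset.mem_image_of_mem _ h
      · rw [← b3]; exact Finset.mem_image_of_mem _ h
    have h2 : pre τ.2.1 x ∈ τ.2.2.2 := by
      rcases Finset.mem_union.1 hx' with h | h
      · rw [← a4]; exact Finset.mem_image_of_mem _ h
      · rw [← b4]; exact Finset.mem_image_of_mem _ h
    exact Finset.disjoint_left.1 a5 h1 h2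

/-! ### The maximal ideal avoiding the basic sets -/

/-- The ideals considered. -/
structure Cand (J : Set (Set ℕ)) : Prop where
  sub : ∀ A ∈ J, ∀ B, B ⊆ A → B ∈ J
  un : ∀ A ∈ J, ∀ B ∈ J, A ∪ B ∈ J
  base : J0 ⊆ J
  avoid : ∀ S T : Finset X, GoodF S → Disjoint S T → bas S T ∉ J

theorem cand_J0 : Cand J0 where
  sub := by
    rintro A ⟨N, hN⟩ B hBA
    exact ⟨N, fun n hn => hN n (hBA hn)⟩
  un := by
    rintro A ⟨N, hN⟩ B ⟨M, hM⟩
    refine ⟨max N M, ?_⟩
    rintro n (hn | hn)
    · rcases hN n hn with h | h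
      · exact Or.inl (h.trans_le (le_max_left _ _))
      · exact Or.inr h
    · rcases hM n hn with h | h
      · exact Or.inl (h.trans_le (le_max_right _ _))
      · exact Or.inr h
  base := subset_rfl
  avoid _ _ h1 h2 := bas_notMem_J0 h1 h2

theorem exists_maximal : ∃ J, Cand J ∧ ∀ J', Cand J' → J ⊆ J' → J' = J := by
  obtain ⟨m, hm1, hm2⟩ := zorn_subset_nonempty {J | Cand J} (by
    intro c hc hchain hne
    refine ⟨⋃₀ c, ⟨?_, ?_, ?_, ?_⟩, fun s hs => Set.subset_sUnion_of_mem hs⟩
    · rintro A ⟨J, hJ, hA⟩ B hBA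
      exact ⟨J, hJ, (hc hJ).sub A hA B hBA⟩
    · rintro A ⟨J, hJ, hA⟩ B ⟨K, hK, hB⟩
      rcases hchain.total hJ hK with h | h
      · exact ⟨K, hK, (hc hK).un A (h hA) B hB⟩
      · exact ⟨J, hJ, (hc hJ).un A hA B (h hB)⟩
    · obtain ⟨J, hJ⟩ := hne
      exact (hc hJ).base.trans (Set.subset_sUnion_of_mem hJ)
    · rintro S T hS hd ⟨J, hJ, hb⟩
      exact (hc hJ).avoid S T hS hd hb) J0 cand_J0
  exact ⟨m, hm2.prop, fun J' hJ' h => (hm2.eq_of_subset hJ' h).symm⟩

/-- The chosen maximal ideal. -/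
noncomputable def J : Set (Set ℕ) := exists_maximal.choose

theorem cand_J : Cand J := exists_maximal.choose_spec.1

theorem J_max {J' : Set (Set ℕ)} (h : Cand J') (h' : J ⊆ J') : J' = J :=
  exists_maximal.choose_spec.2 J' h h'

theorem J_dense {B : Set ℕ} (hB : B ∉ J) :
    ∃ S T : Finset X, GoodF S ∧ Disjoint S T ∧ bas S T \ B ∈ J := by
  by_contra hcon
  push Not at hcon
  have hcand : Cand {C | ∃ j ∈ J, C ⊆ B ∪ j} := by
    refine ⟨?_, ?_, ?_, ?_⟩
    · rintro C ⟨j, hj, hC⟩ D hD
      exact ⟨j, hj, hD.trans hC⟩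
    · rintro C ⟨j, hj, hC⟩ D ⟨k, hk, hD⟩
      refine ⟨j ∪ k, cand_J.un j hj k hk, ?_⟩
      rintro n (hn | hn)
      · rcases hC hn with h | h
        · exact Or.inl h
        · exact Or.inr (Or.inl h)
      · rcases hD hn with h | h
        · exact Or.inl h
        · exact Or.inr (Or.inr h)
    · intro C hC
      exact ⟨C, cand_J.base hC, Set.subset_union_right⟩
    · rintro S T hS hd ⟨j, hj, hsub⟩
      apply hcon S T hS hd
      apply cand_J.sub j hj
      rintro n ⟨hn, hnB⟩
      exact (hsub hn).resolve_left hnB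
  have heq := J_max hcand (fun C hC => ⟨C, hC, Set.subset_union_right⟩)
  apply hB
  rw [← heq]
  exact ⟨∅, cand_J.sub _ (cand_J.base (J0_finite Set.finite_empty)) _ subset_rfl,
    Set.subset_union_left⟩

theorem J_empty : (∅ : Set ℕ) ∈ J := cand_J.base (J0_finite Set.finite_empty)

theorem univ_notMem_J : (Set.univ : Set ℕ) ∉ J := by
  intro h
  have h1 : GoodF ∅ := fun s => (hits_card_le s ∅).trans (by simp)
  exact cand_J.avoid ∅ ∅ h1 (by simp) (cand_J.sub _ h _ (Set.subset_univ _))

/-- The filter dual to the chosen ideal. -/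
noncomputable def fil : Filter ℕ where
  sets := {A | Aᶜ ∈ J}
  univ_sets := by
    show (Set.univ : Set ℕ)ᶜ ∈ J
    rw [Set.compl_univ]; exact J_empty
  sets_of_superset := by
    intro A B hA hAB
    exact cand_J.sub _ hA _ (Set.compl_subset_compl.2 hAB)
  inter_sets := by
    intro A B hA hB
    show (A ∩ B)ᶜ ∈ J
    rw [Set.compl_inter]
    exact cand_J.un _ hA _ hB

theorem mem_fil {A : Set ℕ} : A ∈ fil ↔ Aᶜ ∈ J := Iff.rfl

theorem ideal_fil : ideal fil = J := by
  ext A
  show Aᶜᶜ ∈ J ↔ _
  rw [compl_compl]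

theorem isFree_fil : IsFree fil := by
  constructor
  · rw [Filter.neBot_iff]
    intro h
    have : (∅ : Set ℕ) ∈ fil := by rw [h]; exact Filter.mem_bot
    rw [mem_fil, Set.compl_empty] at this
    exact univ_notMem_J this
  · intro A hA
    exact cand_J.base (J0_finite hA)

theorem poor_fil : Poor fil := by
  intro 𝒜 hgr hpair
  rw [ideal_fil] at hpair
  have hpos : ∀ A ∈ 𝒜, A ∉ J := by
    intro A hA h
    have := hgr hA
    apply this
    rw [ideal_fil]
    exact h
  have h1 : ∀ A : 𝒜, ∃ τ : Ty, ∃ S T : Finset X, GoodF S ∧ Disjoint S T ∧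
      bas S T \ (A : Set ℕ) ∈ J ∧ HasType S T τ := by
    rintro ⟨A, hA⟩
    obtain ⟨S, T, hS, hd, hJ⟩ := J_dense (hpos A hA)
    obtain ⟨τ, hτ⟩ := exists_type hd
    exact ⟨τ, S, T, hS, hd, hJ, hτ⟩
  choose f S T hS hd hJ hτ using h1
  have hinj : Function.Injective f := by
    intro A B hAB
    by_contra hne
    have hne' : (A : Set ℕ) ≠ B := fun h => hne (Subtype.ext h)
    have h2 := hpair A A.2 B B.2 hne'
    have hτB := hτ B
    rw [← hAB] at hτB
    obtain ⟨h3, h4⟩ := type_compat (hS A) (hτ A) hτB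
    apply cand_J.avoid _ _ h3 h4
    apply cand_J.sub _ (cand_J.un _ (cand_J.un _ (hJ A) _ (hJ B)) _ h2)
    rintro n ⟨hn1, hn2, hn3⟩
    have hnA : n ∈ bas (S A) (T A) :=
      ⟨hn1, fun t ht => hn2 t (Finset.mem_union_left _ ht),
        fun t ht => hn3 t (Finset.mem_union_left _ ht)⟩
    have hnB : n ∈ bas (S B) (T B) :=
      ⟨hn1, fun t ht => hn2 t (Finset.mem_union_right _ ht),
        fun t ht => hn3 t (Finset.mem_union_right _ ht)⟩
    by_cases ha : n ∈ (A : Set ℕ)
    · by_cases hb : n ∈ (B : Set ℕ)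
      · exact Or.inr ⟨ha, hb⟩
      · exact Or.inl (Or.inr ⟨hnB, hb⟩)
    · exact Or.inl (Or.inl ⟨hnA, ha⟩)
  rw [← Set.countable_coe_iff]
  exact hinj.countable

/-! ### No statistical measure generates the filter -/

theorem not_generated : ¬ GeneratedByMeasure fil := by
  classical
  rintro ⟨μ, hμ, hgen⟩
  have hnull : ∀ A : Set ℕ, μ A = 0 ↔ A ∈ J := by
    intro A
    have h1 := hgen Aᶜ
    rw [mem_fil, compl_compl, hμ.compl] at h1
    rw [h1]
    constructor <;> intro h <;> linarith
  have hpos : ∀ t : X, 0 < μ (bas {t} ∅) := by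
    intro t
    apply lt_of_le_of_ne (hμ.nonneg _)
    intro h
    exact cand_J.avoid {t} ∅ (goodF_singleton t) (by simp) ((hnull _).1 h.symm)
  -- Baire category
  let Y : ℕ → Set X := fun j => {t | 1 < (j : ℝ) * μ (bas {t} ∅)}
  have hY : ⋃ j, closure (Y j) = Set.univ := by
    rw [Set.eq_univ_iff_forall]
    intro t
    obtain ⟨j, hj⟩ := exists_nat_gt (μ (bas {t} ∅))⁻¹
    refine Set.mem_iUnion.2 ⟨j, subset_closure ?_⟩
    show 1 < (j : ℝ) * μ (bas {t} ∅)
    have := (inv_lt_iff_one_lt_mul₀ (hpos t)).1 hj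
    linarith
  obtain ⟨j, x, hx⟩ := nonempty_interior_of_iUnion_of_closed
    (fun j => isClosed_closure (s := Y j)) hY
  -- a cylinder inside the closure
  obtain ⟨n0, hn0⟩ : ∃ n, ∀ y : X, (∀ i < n, y i = x i) → y ∈ interior (closure (Y j)) := by
    have h1 : interior (closure (Y j)) ∈ 𝓝 x := isOpen_interior.mem_nhds hx
    rw [nhds_pi, Filter.mem_pi'] at h1
    obtain ⟨I, t, ht, hsub⟩ := h1
    refine ⟨I.sup id + 1, fun y hy => hsub ?_⟩
    intro i hi
    have : y i = x i := hy i (Nat.lt_succ_of_le (Finset.le_sup (f := id) hi))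
    rw [this]
    exact mem_of_mem_nhds (ht i)
  -- a long word with large index
  obtain ⟨n, hn, hcc⟩ : ∃ n, n0 ≤ n ∧ j ≤ cc (pre n x) := by
    have hinj : Function.Injective (fun n => cc (pre n x)) := by
      intro a b hab
      have h1 : pre a x = pre b x := Encodable.encode_injective (Nat.succ_injective hab)
      have h2 := congrArg List.length h1
      simpa [pre] using h2
    obtain ⟨n, h1, h2⟩ := ((Filter.eventually_ge_atTop n0).and
      (hinj.nat_tendsto_atTop.eventually (Filter.eventually_ge_atTop j))).exists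
    exact ⟨n, h1, h2⟩
  set s := pre n x with hs
  have hslen : s.length = n := by simp [hs, pre]
  have hchoose : ∀ k : ℕ, ∃ t ∈ Y j, pre n t = s ∧ t n = k := by
    intro k
    let y : X := fun i => if i < n then x i else k
    have hy : y ∈ closure (Y j) := by
      apply interior_subset
      apply hn0
      intro i hi
      show (if i < n then x i else k) = x i
      rw [if_pos (hi.trans_le hn)]
    have hopen : IsOpen {t : X | ∀ i ∈ Finset.range (n + 1), t i = y i} := by
      have : {t : X | ∀ i ∈ Finset.range (n + 1), t i = y i} =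
          ⋂ i ∈ Finset.range (n + 1), {t : X | t i = y i} := by
        ext t
        simp
      rw [this]
      apply isOpen_biInter_finset
      intro i _
      have hc : Continuous (fun t : X => t i) := continuous_apply i
      exact (isOpen_discrete ({y i} : Set ℕ)).preimage hc
    obtain ⟨t, ht, htY⟩ := mem_closure_iff.1 hy _ hopen (fun i _ => rfl)
    refine ⟨t, htY, ?_, ?_⟩
    · rw [hs, pre_eq_iff]
      intro i hi
      have h1 : t i = y i := ht i (Finset.mem_range.2 (by omega))
      rw [h1]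
      show (if i < n then x i else k) = x i
      rw [if_pos hi]
    · have h1 : t n = y n := ht n (Finset.mem_range.2 (by omega))
      rw [h1]
      show (if n < n then x n else k) = k
      rw [if_neg (lt_irrefl n)]
  choose t htY htpre htn using hchoose
  have hsum := hμ.sum_le (Finset.range (cc s ^ 2)) (fun k => bas {t k} ∅) (cc s)
    {m | Adm m ∧ (pt m).1 < n + 1} ((hnull _).2 (cand_J.base
      ⟨n + 1, fun m hm => Or.inl hm.2⟩)) (by
    intro m hm K hK hKm
    by_cases hKe : K.Nonempty
    · obtain ⟨k0, hk0⟩ := hKe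
      have hadm : Adm m := (hKm k0 hk0).1
      have hlev : s.length < (pt m).1 := by
        rw [hslen]
        by_contra hlt
        exact hm ⟨hadm, by omega⟩
      have h1 := adm_bound hadm hlev (F := K.image t) (by
        intro u hu
        obtain ⟨k, hk, rfl⟩ := Finset.mem_image.1 hu
        exact (hKm k hk).2.1 (t k) (Finset.mem_singleton_self _))
      refine (Finset.card_le_card ?_).trans h1
      intro k hk
      rw [mem_hits]
      refine ⟨t k, Finset.mem_image_of_mem _ hk, ?_, ?_, ?_⟩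
      · rw [hslen]; exact htpre k
      · rw [hslen, htn]
        exact Finset.mem_range.1 (hK hk)
      · rw [hslen, htn]
    · rw [Finset.not_nonempty_iff_eq_empty] at hKe
      rw [hKe, Finset.card_empty]
      exact Nat.zero_le _)
  have hccpos : 0 < cc s := Nat.succ_pos _
  have hlt : ∑ k ∈ Finset.range (cc s ^ 2), (1 : ℝ) <
      ∑ k ∈ Finset.range (cc s ^ 2), (j : ℝ) * μ (bas {t k} ∅) := by
    apply Finset.sum_lt_sum_of_nonempty
    · rw [Finset.nonempty_range_iff]
      positivity
    · intro k _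
      exact htY k
  rw [← Finset.mul_sum, Finset.sum_const, Finset.card_range, nsmul_eq_mul, mul_one] at hlt
  have hj : (j : ℝ) ≤ cc s := by exact_mod_cast hcc
  have h3 : (j : ℝ) * ∑ k ∈ Finset.range (cc s ^ 2), μ (bas {t k} ∅) ≤ cc s * cc s := by
    apply mul_le_mul hj hsum (Finset.sum_nonneg fun k _ => hμ.nonneg _) (by positivity)
  push_cast at hlt
  nlinarith

/-! ### Poor filters are not conglomerated -/

theorem ideal_subset {𝔉 : Filter ℕ} {A B : Set ℕ} (hA : A ∈ ideal 𝔉) (h : B ⊆ A) :
    B ∈ ideal 𝔉 := by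
  show Bᶜ ∈ 𝔉
  exact Filter.mem_of_superset (show Aᶜ ∈ 𝔉 from hA) (Set.compl_subset_compl.2 h)

theorem ideal_biUnion {𝔉 : Filter ℕ} {D : ℕ → Set ℕ} (hD : ∀ n, D n ∈ ideal 𝔉) {M : Set ℕ}
    (hM : M.Finite) : (⋃ n ∈ M, D n) ∈ ideal 𝔉 := by
  show (⋃ n ∈ M, D n)ᶜ ∈ 𝔉
  rw [Set.compl_iUnion₂, Filter.biInter_mem hM]
  intro n _
  exact hD n

/-- The branch of `x`, as a set of natural numbers. -/
def branch (x : X) : Set ℕ := Set.range fun n => Encodable.encode (pre n x)

theorem branch_infinite (x : X) : (branch x).Infinite := by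
  apply Set.infinite_range_of_injective
  intro a b hab
  have h1 : pre a x = pre b x := Encodable.encode_injective hab
  have h2 := congrArg List.length h1
  simpa [pre] using h2

theorem branch_inter {x y : X} (h : x ≠ y) : (branch x ∩ branch y).Finite := by
  obtain ⟨i, hi⟩ := Function.ne_iff.1 h
  apply ((Set.finite_Iic i).image fun n => Encodable.encode (pre n x)).subset
  rintro _ ⟨⟨n, rfl⟩, m, hm⟩
  refine ⟨n, ?_, rfl⟩
  have h1 : pre m y = pre n x := Encodable.encode_injective hm
  have h2 := congrArg List.length h1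
  have h3 : m = n := by simpa [pre] using h2
  subst h3
  rw [pre_eq_iff] at h1
  by_contra hlt
  exact hi (h1 i (not_le.1 hlt)).symm

theorem not_conglomerated_of_poor {𝔉 : Filter ℕ} (hp : Poor 𝔉) : ¬ Conglomerated 𝔉 := by
  rintro ⟨D, hD, hdisj, hinf⟩
  have hgr : ∀ x : X, (⋃ n ∈ branch x, D n) ∈ grill 𝔉 := fun x => hinf _ (branch_infinite x)
  have hint : ∀ x y : X, x ≠ y →
      (⋃ n ∈ branch x, D n) ∩ (⋃ n ∈ branch y, D n) ∈ ideal 𝔉 := by
    intro x y hxy
    apply ideal_subset (ideal_biUnion hD (branch_inter hxy))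
    rintro k ⟨hk1, hk2⟩
    simp only [Set.mem_iUnion, exists_prop] at hk1 hk2 ⊢
    obtain ⟨n, hn, hkn⟩ := hk1
    obtain ⟨m, hm, hkm⟩ := hk2
    have hnm : n = m := by
      by_contra hne
      exact Set.disjoint_left.1 (hdisj n m hne) hkn hkm
    subst hnm
    exact ⟨n, ⟨hn, hm⟩, hkn⟩
  have hcount := hp (Set.range fun x : X => ⋃ n ∈ branch x, D n) (by
    rintro _ ⟨x, rfl⟩
    exact hgr x) (by
    rintro _ ⟨x, rfl⟩ _ ⟨y, rfl⟩ hne
    apply hint
    rintro rfl
    exact hne rfl)
  have hinj : Function.Injective fun x : X => ⋃ n ∈ branch x, D n := by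
    intro x y hxy
    by_contra hne
    have h1 := hint x y hne
    have hxy' : (⋃ n ∈ branch x, D n) = ⋃ n ∈ branch y, D n := hxy
    rw [← hxy', Set.inter_self] at h1
    exact hgr x h1
  have h3 : Uncountable X := by
    rw [← Cardinal.aleph0_lt_mk_iff]
    show Cardinal.aleph0 < Cardinal.mk (ℕ → ℕ)
    simp [Cardinal.aleph0_lt_continuum]
  have h2 : Countable X := by
    have : (Set.univ : Set X).Countable := by
      apply (hcount.preimage_of_injOn (f := fun x : X => ⋃ n ∈ branch x, D n) hinj.injOn).mono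
      intro x _
      exact ⟨x, rfl⟩
    exact Set.countable_univ_iff.1 this
  exact not_countable h2

end Pool.Agent.X215.StatFilters
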