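import Mathlib
import Pool.Agent.X215.StatFilters
import Pool.Agent.Y871.TK.Top

/-!
A free filter on the natural numbers which is neither poor nor conglomerated.
-/

namespace Pool.Agent.X215.NonPoor

open Filter Topology Set Cardinal
open Pool.Agent.X215.StatFilters

theorem ideal_of_finite {𝔉 : Filter ℕ} (h : IsFree 𝔉) {A : Set ℕ} (hA : A.Finite) :
    A ∈ ideal 𝔉 := by
  apply h.2
  rwa [compl_compl]

theorem inter_ideal {𝔉 : Filter ℕ} {D : ℕ → Set ℕ} (hD : ∀ n, D n ∈ ideal 𝔉)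
    (hdisj : ∀ m n, m ≠ n → Disjoint (D m) (D n)) {x y : X} (hxy : x ≠ y) :
    (⋃ n ∈ branch x, D n) ∩ (⋃ n ∈ branch y, D n) ∈ ideal 𝔉 := by
  apply ideal_subset (ideal_biUnion hD (branch_inter hxy))
  rintro k ⟨hk1, hk2⟩
  simp only [Set.mem_iUnion, exists_prop] at hk1 hk2 ⊢
  obtain ⟨n, hn, hkn⟩ := hk1
  obtain ⟨m, hm, hkm⟩ := hk2
  have hnm : n = m := by
    by_contra hne
    exact Set.disjoint_left.1 (hdisj n m hne) hkn hkm
  subst hnm
  exact ⟨n, ⟨hn, hm⟩, hkn⟩

/-! ### The case `ℵ₁ < 𝔠` -/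

theorem of_not_CH (h : (ℵ₁ : Cardinal.{0}) < 𝔠) :
    ∃ 𝔉 : Filter ℕ, IsFree 𝔉 ∧ ¬ Poor 𝔉 ∧ ¬ Conglomerated 𝔉 := by
  have hX : #X = 𝔠 := by
    show #(ℕ → ℕ) = 𝔠
    simp
  obtain ⟨Γ, hΓ⟩ : ∃ p : Set X, #p = ℵ₁ := le_mk_iff_exists_set.1 (by rw [hX]; exact h.le)
  have hne : Nonempty Γ := by
    rw [← mk_ne_zero_iff, hΓ]
    exact (aleph_pos 1).ne'
  have hU : ∀ x : X, ∃ U : Ultrafilter ℕ, branch x ∈ U ∧ ∀ A : Set ℕ, Aᶜ.Finite → A ∈ U := by
    intro x
    have : (Filter.cofinite ⊓ 𝓟 (branch x)).NeBot :=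
      Filter.cofinite_inf_principal_neBot_iff.2 (branch_infinite x)
    obtain ⟨U, hU⟩ := Ultrafilter.exists_le (Filter.cofinite ⊓ 𝓟 (branch x))
    refine ⟨U, ?_, fun A hA => ?_⟩
    · exact hU (Filter.mem_inf_of_right (Filter.mem_principal_self _))
    · exact hU (Filter.mem_inf_of_left (Filter.mem_cofinite.2 hA))
  choose U hUb hUf using hU
  let 𝔉 : Filter ℕ := ⨆ x : Γ, (U x : Filter ℕ)
  have hmem : ∀ A : Set ℕ, A ∈ 𝔉 ↔ ∀ x : Γ, A ∈ U x := fun A => Filter.mem_iSup
  have hgrill : ∀ A : Set ℕ, A ∈ grill 𝔉 ↔ ∃ x : Γ, A ∈ U x := by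
    intro A
    have h1 : A ∈ grill 𝔉 ↔ ¬ ∀ x : Γ, Aᶜ ∈ U x := by
      rw [← hmem]
      exact Iff.rfl
    rw [h1, not_forall]
    apply exists_congr
    intro x
    exact Ultrafilter.compl_notMem_iff
  have hfree : IsFree 𝔉 := by
    constructor
    · rw [Filter.neBot_iff]
      intro h0
      have h1 : (∅ : Set ℕ) ∈ 𝔉 := by rw [h0]; exact Filter.mem_bot
      obtain ⟨x⟩ := hne
      exact (U x).empty_notMem ((hmem ∅).1 h1 x)
    · intro A hA
      exact (hmem A).2 fun x => hUf x A hA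
  refine ⟨𝔉, hfree, ?_, ?_⟩
  · intro hp
    have hinj : Function.Injective (fun x : Γ => branch (x : X)) := by
      intro x y hxy
      by_contra hne
      have hxy' : branch (x : X) = branch (y : X) := hxy
      have h1 := branch_inter (x := (x : X)) (y := (y : X)) (fun h => hne (Subtype.ext h))
      rw [← hxy', Set.inter_self] at h1
      exact branch_infinite _ h1
    have hc := hp (Set.range fun x : Γ => branch (x : X)) (by
      rintro _ ⟨x, rfl⟩
      exact (hgrill _).2 ⟨x, hUb x⟩) (by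
      rintro _ ⟨x, rfl⟩ _ ⟨y, rfl⟩ hxy
      apply ideal_of_finite hfree
      apply branch_inter
      intro h
      exact hxy (congrArg branch h))
    rw [← le_aleph0_iff_set_countable, mk_range_eq _ hinj, hΓ] at hc
    exact absurd hc (not_le.2 aleph0_lt_aleph_one)
  · rintro ⟨D, hD, hdisj, hinf⟩
    have h1 : ∀ y : X, ∃ x : Γ, (⋃ n ∈ branch y, D n) ∈ U x := fun y =>
      (hgrill _).1 (hinf _ (branch_infinite y))
    choose f hf using h1
    have hnotinj : ¬ Function.Injective f := by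
      intro hi
      have h2 := mk_le_of_injective hi
      rw [hX, hΓ] at h2
      exact absurd h2 (not_le.2 h)
    simp only [Function.Injective, not_forall] at hnotinj
    obtain ⟨y, z, hyz, hne'⟩ := hnotinj
    have h3 := inter_ideal hD hdisj hne'
    have h4 : (⋃ n ∈ branch y, D n) ∩ (⋃ n ∈ branch z, D n) ∈ U (f y) := by
      have h5 := hf z
      rw [← hyz] at h5
      exact Filter.inter_mem (hf y) h5
    exact (hgrill _).2 ⟨f y, h4⟩ h3

/-! ### The case `𝔠 = ℵ₁` -/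

theorem aleph_one_le_domNum : ℵ₁ ≤ Pool.Agent.Y871.TK.domNum := by
  have hne : {κ | ∃ S : Set (ℕ → ℕ), Pool.Agent.Y871.TK.Dominating S ∧ #S = κ}.Nonempty :=
    ⟨_, Set.univ, fun f => ⟨f, trivial, Filter.Eventually.of_forall fun _ => le_rfl⟩, rfl⟩
  apply le_csInf hne
  rintro κ ⟨S, hS, rfl⟩
  rw [← succ_aleph0]
  apply Order.succ_le_of_lt
  by_contra hle
  rw [not_lt, le_aleph0_iff_set_countable] at hle
  have hSne : S.Nonempty := by
    obtain ⟨g, hg, -⟩ := hS (fun _ => 0)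
    exact ⟨g, hg⟩
  obtain ⟨e, rfl⟩ := hle.exists_eq_range hSne
  obtain ⟨_, ⟨i, rfl⟩, hi⟩ := hS (fun n => (Finset.range (n + 1)).sup (fun j => e j n) + 1)
  obtain ⟨n, h1, h2⟩ := (hi.and (Filter.eventually_ge_atTop i)).exists
  have h3 : e i n ≤ (Finset.range (n + 1)).sup (fun j => e j n) :=
    Finset.le_sup (f := fun j => e j n) (Finset.mem_range.2 (by omega))
  omega

theorem exists_pPoint (h : (𝔠 : Cardinal.{0}) ≤ ℵ₁) : ∃ V : Ultrafilter ℕ, (∀ n : ℕ, ({n} : Set ℕ) ∉ V) ∧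
    ∀ S : ℕ → Set ℕ, (∀ n, S n ∈ V) → ∃ B ∈ V, ∀ n, (B \ S n).Finite := by
  have hd : Pool.Agent.Y871.TK.domNum = 𝔠 := by
    apply le_antisymm
    · have h1 := Pool.Agent.Y871.TK.domNum_le (S := Set.univ)
        (fun f => ⟨f, trivial, Filter.Eventually.of_forall fun _ => le_rfl⟩)
      refine h1.trans ?_
      rw [mk_univ]
      simp
    · exact h.trans aleph_one_le_domNum
  obtain ⟨V, -, hV, hVp, -⟩ := Pool.Agent.Y871.TK.top (Or.inl hd)
  refine ⟨V, hV, fun S hS => ?_⟩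
  obtain ⟨B, hB, hB2⟩ := hVp (Set.range S) (Set.countable_range S) (by
    rintro _ ⟨n, rfl⟩
    exact hS n)
  exact ⟨B, hB, fun n => hB2 _ ⟨n, rfl⟩⟩

/-- The finite levels of the binary tree. -/
def lvl (n : ℕ) : Set ℕ :=
  Set.range fun w : Fin n → Bool => Encodable.encode (⟨n, w⟩ : Σ n : ℕ, (Fin n → Bool))

theorem lvl_finite (n : ℕ) : (lvl n).Finite := Set.finite_range _

theorem lvl_disjoint {m n k : ℕ} (h1 : k ∈ lvl m) (h2 : k ∈ lvl n) : m = n := by
  obtain ⟨w, rfl⟩ := h1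
  obtain ⟨v, hv⟩ := h2
  have := Encodable.encode_injective hv
  exact (congrArg Sigma.fst this).symm

/-- The set of restrictions of an infinite binary sequence. -/
def bran (x : ℕ → Bool) : Set ℕ :=
  Set.range fun n : ℕ => Encodable.encode
    (⟨n, fun i : Fin n => x i⟩ : Σ n : ℕ, (Fin n → Bool))

theorem bran_meets (x : ℕ → Bool) (n : ℕ) : ∃ k ∈ bran x, k ∈ lvl n :=
  ⟨_, ⟨n, rfl⟩, ⟨_, rfl⟩⟩

theorem bran_inter {x y : ℕ → Bool} (h : x ≠ y) : (bran x ∩ bran y).Finite := by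
  obtain ⟨i, hi⟩ := Function.ne_iff.1 h
  apply ((Set.finite_Iic i).image fun n : ℕ => Encodable.encode
    (⟨n, fun i : Fin n => x i⟩ : Σ n : ℕ, (Fin n → Bool))).subset
  rintro _ ⟨⟨n, rfl⟩, m, hm⟩
  refine ⟨n, ?_, rfl⟩
  have h1 := Encodable.encode_injective hm
  by_contra hlt
  have hlt' : i < n := not_le.1 hlt
  apply hi
  have h2 : m = n := congrArg Sigma.fst h1
  subst h2
  have h3 := eq_of_heq (Sigma.mk.inj h1).2
  exact (congrFun h3 ⟨i, hlt'⟩).symm

theorem bran_infinite (x : ℕ → Bool) : (bran x).Infinite := by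
  apply Set.infinite_range_of_injective
  intro a b hab
  exact congrArg Sigma.fst (Encodable.encode_injective hab)

theorem of_CH (h : (𝔠 : Cardinal.{0}) ≤ ℵ₁) :
    ∃ 𝔉 : Filter ℕ, IsFree 𝔉 ∧ ¬ Poor 𝔉 ∧ ¬ Conglomerated 𝔉 := by
  obtain ⟨V, hV, hVp⟩ := exists_pPoint h
  have hVfin : ∀ A : Set ℕ, A.Finite → A ∉ V := by
    intro A hA hAV
    obtain ⟨n, hn, hn2⟩ := (Ultrafilter.finite_biUnion_mem_iff (is := A) (s := fun n => {n})
      hA).1 (by
        have : (⋃ n ∈ A, ({n} : Set ℕ)) = A := by simp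
        rw [this]
        exact hAV)
    exact hV n hn2
  let 𝔉 : Filter ℕ :=
    { sets := {A | {n | lvl n ⊆ A} ∈ V}
      univ_sets := by
        show {n | lvl n ⊆ Set.univ} ∈ V
        have : {n | lvl n ⊆ Set.univ} = Set.univ := by
          rw [Set.eq_univ_iff_forall]
          exact fun n => Set.subset_univ _
        rw [this]
        exact Filter.univ_mem
      sets_of_superset := by
        intro A B hA hAB
        exact Filter.mem_of_superset hA fun n hn => Set.Subset.trans hn hAB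
      inter_sets := by
        intro A B hA hB
        exact Filter.mem_of_superset (Filter.inter_mem hA hB) fun n hn =>
          Set.subset_inter hn.1 hn.2 }
  have hmem : ∀ A : Set ℕ, A ∈ 𝔉 ↔ {n | lvl n ⊆ A} ∈ V := fun A => Iff.rfl
  have hgrill : ∀ A : Set ℕ, A ∈ grill 𝔉 ↔ {n | ∃ k ∈ A, k ∈ lvl n} ∈ V := by
    intro A
    have h1 : A ∈ grill 𝔉 ↔ ¬ {n | lvl n ⊆ Aᶜ} ∈ V := Iff.rfl
    rw [h1, ← Ultrafilter.compl_mem_iff_notMem]
    have h2 : {n | lvl n ⊆ Aᶜ}ᶜ = {n | ∃ k ∈ A, k ∈ lvl n} := by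
      ext n
      simp only [Set.mem_compl_iff, Set.mem_ofPred_eq, Set.subset_def, not_forall, not_not]
      constructor
      · rintro ⟨k, hk, hkA⟩
        exact ⟨k, hkA, hk⟩
      · rintro ⟨k, hkA, hk⟩
        exact ⟨k, hk, hkA⟩
    rw [h2]
  have hfree : IsFree 𝔉 := by
    constructor
    · rw [Filter.neBot_iff]
      intro h0
      have h1 : (∅ : Set ℕ) ∈ 𝔉 := by rw [h0]; exact Filter.mem_bot
      rw [hmem] at h1
      have h2 : {n | lvl n ⊆ ∅} = ∅ := by
        ext n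
        simp only [Set.mem_ofPred_eq, Set.subset_empty_iff, Set.mem_empty_iff_false, iff_false]
        intro h3
        obtain ⟨k, -, hk⟩ := bran_meets (fun _ => true) n
        rw [h3] at hk
        exact hk
      rw [h2] at h1
      exact V.empty_notMem h1
    · intro A hA
      rw [hmem]
      by_contra hcon
      rw [← Ultrafilter.compl_mem_iff_notMem] at hcon
      apply hVfin _ _ hcon
      have hch : ∀ k : ℕ, ({n | k ∈ lvl n}).Subsingleton := fun k m hm n hn =>
        lvl_disjoint hm hn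
      have h1 : (⋃ k ∈ Aᶜ, {n | k ∈ lvl n}).Finite := hA.biUnion fun k _ => (hch k).finite
      apply h1.subset
      intro n hn
      have hn' : ¬ lvl n ⊆ A := hn
      obtain ⟨k, hk1, hk2⟩ := Set.not_subset.1 hn'
      exact Set.mem_iUnion₂.2 ⟨k, hk2, hk1⟩
  refine ⟨𝔉, hfree, ?_, ?_⟩
  · intro hp
    have hinj : Function.Injective bran := by
      intro x y hxy
      by_contra hne
      have h1 := bran_inter hne
      rw [← hxy, Set.inter_self] at h1
      exact bran_infinite _ h1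
    have hc := hp (Set.range bran) (by
      rintro _ ⟨x, rfl⟩
      rw [hgrill]
      have : {n | ∃ k ∈ bran x, k ∈ lvl n} = Set.univ := by
        rw [Set.eq_univ_iff_forall]
        exact fun n => bran_meets x n
      rw [this]
      exact Filter.univ_mem) (by
      rintro _ ⟨x, rfl⟩ _ ⟨y, rfl⟩ hxy
      apply ideal_of_finite hfree
      apply bran_inter
      rintro rfl
      exact hxy rfl)
    rw [← le_aleph0_iff_set_countable, mk_range_eq _ hinj] at hc
    have h1 : #(ℕ → Bool) = 𝔠 := by simp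
    rw [h1] at hc
    exact absurd hc (not_le.2 aleph0_lt_continuum)
  · rintro ⟨D, hD, hdisj, hinf⟩
    obtain ⟨E, hE, hEn⟩ := hVp (fun n => {m | lvl m ⊆ (D n)ᶜ}) (fun n => hD n)
    -- the indices met by a level
    let N : ℕ → Set ℕ := fun m => {n | ∃ k ∈ D n, k ∈ lvl m}
    have hNfin : ∀ m, (N m).Finite := by
      intro m
      have h1 : (⋃ k ∈ lvl m, {n | k ∈ D n}).Finite := by
        apply (lvl_finite m).biUnion
        intro k _
        apply Set.Subsingleton.finite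
        intro a ha b hb
        by_contra hne
        exact Set.disjoint_left.1 (hdisj a b hne) ha hb
      apply h1.subset
      rintro n ⟨k, hk1, hk2⟩
      exact Set.mem_iUnion₂.2 ⟨k, hk2, hk1⟩
    have hEfin : ∀ n, {m | m ∈ E ∧ n ∈ N m}.Finite := by
      intro n
      apply (hEn n).subset
      rintro m ⟨hm, k, hk1, hk2⟩
      refine ⟨hm, fun h1 => ?_⟩
      exact h1 hk2 hk1
    obtain ⟨f, -, hf⟩ := exists_seq_of_forall_finset_exists (fun _ : ℕ => True)
      (fun a b => a < b ∧ ∀ m ∈ E, ¬ (a ∈ N m ∧ b ∈ N m)) (by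
      intro s _
      have h1 : (⋃ a ∈ s, ⋃ m ∈ {m | m ∈ E ∧ a ∈ N m}, N m).Finite := by
        apply Set.Finite.biUnion (Finset.finite_toSet s)
        intro a _
        exact (hEfin a).biUnion fun m _ => hNfin m
      have h2 := (h1.union (Set.finite_Iic (s.sup id))).infinite_compl.nonempty
      obtain ⟨b, hb⟩ := h2
      refine ⟨b, trivial, fun a ha => ⟨?_, ?_⟩⟩
      · by_contra hlt
        apply hb
        right
        exact (not_lt.1 hlt).trans (Finset.le_sup (f := id) ha)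
      · rintro m hm ⟨h3, h4⟩
        apply hb
        left
        exact Set.mem_iUnion₂.2 ⟨a, ha, Set.mem_iUnion₂.2 ⟨m, ⟨hm, h3⟩, h4⟩⟩)
    have hfmono : StrictMono f := fun a b hab => (hf a b hab).1
    have hdis : ∀ a b, a ≠ b → ∀ m ∈ E, ¬ (f a ∈ N m ∧ f b ∈ N m) := by
      intro a b hab m hm
      rcases lt_or_gt_of_ne hab with h1 | h1
      · exact (hf a b h1).2 m hm
      · intro h2
        exact (hf b a h1).2 m hm ⟨h2.2, h2.1⟩
    have h0 := hinf (Set.range fun k => f (2 * k)) (Set.infinite_range_of_injective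
      (fun a b hab => by
        have := hfmono.injective hab
        omega))
    have h1 := hinf (Set.range fun k => f (2 * k + 1)) (Set.infinite_range_of_injective
      (fun a b hab => by
        have := hfmono.injective hab
        omega))
    rw [hgrill] at h0 h1
    obtain ⟨m, ⟨hm0, hm1⟩, hmE⟩ := V.nonempty_of_mem (Filter.inter_mem (Filter.inter_mem h0 h1) hE)
    obtain ⟨k, hk, hkm⟩ := hm0
    obtain ⟨k', hk', hkm'⟩ := hm1
    simp only [Set.mem_iUnion, exists_prop, Set.mem_range] at hk hk'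
    obtain ⟨n, ⟨a, ha⟩, hkn⟩ := hk
    obtain ⟨n', ⟨b, hb⟩, hkn'⟩ := hk'
    apply hdis (2 * a) (2 * b + 1) (by omega) m hmE
    constructor
    · rw [ha]
      exact ⟨k, hkn, hkm⟩
    · rw [hb]
      exact ⟨k', hkn', hkm'⟩

theorem exists_filter : ∃ 𝔉 : Filter ℕ, IsFree 𝔉 ∧ ¬ Poor 𝔉 ∧ ¬ Conglomerated 𝔉 := by
  rcases lt_or_ge (ℵ₁ : Cardinal.{0}) 𝔠 with h | h
  · exact of_not_CH h
  · exact of_CH h

end Pool.Agent.X215.NonPoor
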