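import Mathlib
import Pool.Agent.X215.StatFilters

/-!
A maximal ideal of cofinality the continuum with a subideal of relative cofinality `ℵ₁`.
-/

namespace Pool.Agent.X215.RelCof

open Filter Topology Set Cardinal
open Pool.Agent.X215.StatFilters (X pre pt exists_pt eventually_separated)

noncomputable local instance : DecidableEq X := Classical.decEq X

/-! ### An independent family -/

/-- The independent family. -/
def E (x : X) : Set ℕ := {n | pre (pt n).1 x ∈ (pt n).2}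

/-- Boolean combinations. -/
def bb (S T : Finset X) : Set ℕ := {n | (∀ t ∈ S, n ∈ E t) ∧ ∀ t ∈ T, n ∉ E t}

theorem bb_mono {S T S' T' : Finset X} (h : S ⊆ S') (h' : T ⊆ T') : bb S' T' ⊆ bb S T :=
  fun _ hn => ⟨fun t ht => hn.1 t (h ht), fun t ht => hn.2 t (h' ht)⟩

theorem bb_union {S T S' T' : Finset X} : bb (S ∪ S') (T ∪ T') = bb S T ∩ bb S' T' := by
  ext n
  constructor
  · intro hn
    exact ⟨bb_mono Finset.subset_union_left Finset.subset_union_left hn,
      bb_mono Finset.subset_union_right Finset.subset_union_right hn⟩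
  · rintro ⟨h1, h2⟩
    refine ⟨fun t ht => ?_, fun t ht => ?_⟩
    · rcases Finset.mem_union.1 ht with h | h
      · exact h1.1 t h
      · exact h2.1 t h
    · rcases Finset.mem_union.1 ht with h | h
      · exact h1.2 t h
      · exact h2.2 t h

theorem bb_infinite {S T : Finset X} (h : Disjoint S T) : (bb S T).Infinite := by
  intro hfin
  obtain ⟨M, hM⟩ := (hfin.image (fun n => (pt n).1)).bddAbove
  obtain ⟨N, hN1, hN2⟩ :=
    ((eventually_separated h).and (Filter.eventually_gt_atTop M)).exists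
  obtain ⟨n, hn⟩ := exists_pt N (S.image (pre N))
  have h1 : (pt n).1 = N := by rw [hn]
  have h2 : (pt n).2 = S.image (pre N) := by rw [hn]
  have hmem : n ∈ bb S T := by
    refine ⟨fun t ht => ?_, fun t ht => ?_⟩
    · show pre (pt n).1 t ∈ (pt n).2
      rw [h1, h2]
      exact Finset.mem_image_of_mem _ ht
    · show pre (pt n).1 t ∉ (pt n).2
      rw [h1, h2]
      intro h4
      exact Finset.disjoint_left.1 hN1 h4 (Finset.mem_image_of_mem _ ht)
  have := hM ⟨n, hmem, rfl⟩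
  simp only [h1] at this
  omega

/-! ### The countable chain condition -/

/-- A pair of pairs is compatible. -/
def Compat (p p' : Finset X × Finset X) : Prop := Disjoint (p.1 ∪ p'.1) (p.2 ∪ p'.2)

theorem antichain_card {F : Finset (Finset X × Finset X)} {n : ℕ}
    (hF : ∀ p ∈ F, Disjoint p.1 p.2 ∧ p.1.card + p.2.card = n)
    (hA : ∀ p ∈ F, ∀ p' ∈ F, p ≠ p' → ¬ Compat p p') : F.card ≤ 2 ^ n := by
  classical
  let D : Finset X := F.biUnion fun p => p.1 ∪ p.2
  let V : Finset X × Finset X → Finset (Finset X) := fun p =>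
    D.powerset.filter fun Y => p.1 ⊆ Y ∧ Disjoint p.2 Y
  have hD : ∀ p ∈ F, p.1 ∪ p.2 ⊆ D := fun p hp => Finset.subset_biUnion_of_mem
    (fun p : Finset X × Finset X => p.1 ∪ p.2) hp
  have hV : ∀ p ∈ F, 2 ^ (D.card - n) ≤ (V p).card := by
    intro p hp
    obtain ⟨h1, h2⟩ := hF p hp
    have h3 : (D \ (p.1 ∪ p.2)).card = D.card - n := by
      rw [Finset.card_sdiff_of_subset (hD p hp), Finset.card_union_of_disjoint h1, h2]
    rw [← h3, ← Finset.card_powerset]
    apply Finset.card_le_card_of_injOn (fun Y => Y ∪ p.1)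
    · intro Y hY
      have hY' : Y ⊆ D \ (p.1 ∪ p.2) := Finset.mem_powerset.1 (Finset.mem_coe.1 hY)
      apply Finset.mem_coe.2
      apply Finset.mem_filter.2
      refine ⟨Finset.mem_powerset.2 (Finset.union_subset (hY'.trans Finset.sdiff_subset)
        (Finset.subset_union_left.trans (hD p hp))), Finset.subset_union_right, ?_⟩
      rw [Finset.disjoint_union_right]
      refine ⟨?_, h1.symm⟩
      rw [Finset.disjoint_right]
      intro x hx hx'
      exact (Finset.mem_sdiff.1 (hY' hx)).2 (Finset.mem_union_right _ hx')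
    · intro Y hY Z hZ hYZ
      have hY' : Y ⊆ D \ (p.1 ∪ p.2) := Finset.mem_powerset.1 (Finset.mem_coe.1 hY)
      have hZ' : Z ⊆ D \ (p.1 ∪ p.2) := Finset.mem_powerset.1 (Finset.mem_coe.1 hZ)
      have hYZ' : Y ∪ p.1 = Z ∪ p.1 := hYZ
      ext x
      constructor
      · intro hx
        have h4 : x ∈ Z ∪ p.1 := by rw [← hYZ']; exact Finset.mem_union_left _ hx
        rcases Finset.mem_union.1 h4 with h | h
        · exact h
        · exact absurd (Finset.mem_union_left _ h) (Finset.mem_sdiff.1 (hY' hx)).2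
      · intro hx
        have h4 : x ∈ Y ∪ p.1 := by rw [hYZ']; exact Finset.mem_union_left _ hx
        rcases Finset.mem_union.1 h4 with h | h
        · exact h
        · exact absurd (Finset.mem_union_left _ h) (Finset.mem_sdiff.1 (hZ' hx)).2
  have hdisj : ∀ p ∈ F, ∀ p' ∈ F, p ≠ p' → Disjoint (V p) (V p') := by
    intro p hp p' hp' hne
    rw [Finset.disjoint_left]
    intro Y hY hY'
    apply hA p hp p' hp' hne
    have h1 := (Finset.mem_filter.1 hY).2
    have h2 := (Finset.mem_filter.1 hY').2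
    have h3 : p.1 ∪ p'.1 ⊆ Y := Finset.union_subset h1.1 h2.1
    have h4 : Disjoint (p.2 ∪ p'.2) Y := by
      rw [Finset.disjoint_union_left]
      exact ⟨h1.2, h2.2⟩
    exact (h4.mono_right h3).symm
  have hsum : F.card * 2 ^ (D.card - n) ≤ 2 ^ D.card := by
    calc F.card * 2 ^ (D.card - n) = ∑ p ∈ F, 2 ^ (D.card - n) := by
          rw [Finset.sum_const, smul_eq_mul]
      _ ≤ ∑ p ∈ F, (V p).card := Finset.sum_le_sum hV
      _ = (F.biUnion V).card := (Finset.card_biUnion hdisj).symm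
      _ ≤ D.powerset.card := Finset.card_le_card (by
          intro Y hY
          obtain ⟨p, -, hY'⟩ := Finset.mem_biUnion.1 hY
          exact (Finset.mem_filter.1 hY').1)
      _ = 2 ^ D.card := Finset.card_powerset _
  rcases F.eq_empty_or_nonempty with rfl | ⟨p, hp⟩
  · simp
  · have hn : n ≤ D.card := by
      obtain ⟨h1, h2⟩ := hF p hp
      rw [← h2, ← Finset.card_union_of_disjoint h1]
      exact Finset.card_le_card (hD p hp)
    have h5 : 2 ^ D.card = 2 ^ n * 2 ^ (D.card - n) := by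
      rw [← pow_add]
      congr 1
      omega
    rw [h5] at hsum
    exact Nat.le_of_mul_le_mul_right hsum (by positivity)

theorem antichain_countable {A : Set (Finset X × Finset X)} (hd : ∀ p ∈ A, Disjoint p.1 p.2)
    (hA : ∀ p ∈ A, ∀ p' ∈ A, p ≠ p' → ¬ Compat p p') : A.Countable := by
  have h1 : ∀ n : ℕ, {p ∈ A | p.1.card + p.2.card = n}.Finite := by
    intro n
    by_contra hinf
    obtain ⟨F, hF, hFc⟩ := Set.Infinite.exists_subset_card_eq hinf (2 ^ n + 1)
    have h2 := antichain_card (F := F) (n := n)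
      (fun p hp => ⟨hd p (hF hp).1, (hF hp).2⟩)
      (fun p hp p' hp' hne => hA p (hF hp).1 p' (hF hp').1 hne)
    omega
  have h2 : A ⊆ ⋃ n : ℕ, {p ∈ A | p.1.card + p.2.card = n} := fun p hp =>
    Set.mem_iUnion.2 ⟨_, hp, rfl⟩
  exact (Set.countable_iUnion fun n => (h1 n).countable).mono h2

/-! ### The maximal ideal avoiding the Boolean combinations -/

/-- The ideals considered. -/
structure Cand (J : Set (Set ℕ)) : Prop where
  sub : ∀ A ∈ J, ∀ B, B ⊆ A → B ∈ J
  un : ∀ A ∈ J, ∀ B ∈ J, A ∪ B ∈ J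
  fin : ∀ A : Set ℕ, A.Finite → A ∈ J
  avoid : ∀ S T : Finset X, Disjoint S T → bb S T ∉ J

theorem cand_fin : Cand {A : Set ℕ | A.Finite} where
  sub _ hA _ hB := Set.Finite.subset hA hB
  un _ hA _ hB := Set.Finite.union hA hB
  fin _ hA := hA
  avoid _ _ h := bb_infinite h

theorem exists_maximal : ∃ J, Cand J ∧ ∀ J', Cand J' → J ⊆ J' → J' = J := by
  obtain ⟨m, -, hm2⟩ := zorn_subset_nonempty {J | Cand J} (by
    intro c hc hchain hne
    refine ⟨⋃₀ c, ⟨?_, ?_, ?_, ?_⟩, fun s hs => Set.subset_sUnion_of_mem hs⟩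
    · rintro A ⟨J, hJ, hA⟩ B hBA
      exact ⟨J, hJ, (hc hJ).sub A hA B hBA⟩
    · rintro A ⟨J, hJ, hA⟩ B ⟨K, hK, hB⟩
      rcases hchain.total hJ hK with h | h
      · exact ⟨K, hK, (hc hK).un A (h hA) B hB⟩
      · exact ⟨J, hJ, (hc hJ).un A hA B (h hB)⟩
    · intro A hA
      obtain ⟨J, hJ⟩ := hne
      exact ⟨J, hJ, (hc hJ).fin A hA⟩
    · rintro S T hd ⟨J, hJ, hb⟩
      exact (hc hJ).avoid S T hd hb) _ cand_fin
  exact ⟨m, hm2.prop, fun J' hJ' h => (hm2.eq_of_subset hJ' h).symm⟩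

/-- The chosen maximal ideal. -/
noncomputable def J0 : Set (Set ℕ) := exists_maximal.choose

theorem cand_J0 : Cand J0 := exists_maximal.choose_spec.1

theorem J0_max {J' : Set (Set ℕ)} (h : Cand J') (h' : J0 ⊆ J') : J' = J0 :=
  exists_maximal.choose_spec.2 J' h h'

theorem J0_empty : (∅ : Set ℕ) ∈ J0 := cand_J0.fin _ Set.finite_empty

theorem J0_dense {B : Set ℕ} (hB : B ∉ J0) :
    ∃ S T : Finset X, Disjoint S T ∧ bb S T \ B ∈ J0 := by
  by_contra hcon
  push Not at hcon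
  have hcand : Cand {C | ∃ j ∈ J0, C ⊆ B ∪ j} := by
    refine ⟨?_, ?_, ?_, ?_⟩
    · rintro C ⟨j, hj, hC⟩ D hD
      exact ⟨j, hj, hD.trans hC⟩
    · rintro C ⟨j, hj, hC⟩ D ⟨k, hk, hD⟩
      refine ⟨j ∪ k, cand_J0.un j hj k hk, ?_⟩
      rintro n (hn | hn)
      · rcases hC hn with h | h
        · exact Or.inl h
        · exact Or.inr (Or.inl h)
      · rcases hD hn with h | h
        · exact Or.inl h
        · exact Or.inr (Or.inr h)
    · intro C hC
      exact ⟨C, cand_J0.fin C hC, Set.subset_union_right⟩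
    · rintro S T hd ⟨j, hj, hsub⟩
      apply hcon S T hd
      apply cand_J0.sub j hj
      rintro n ⟨hn, hnB⟩
      exact (hsub hn).resolve_left hnB
  have heq := J0_max hcand (fun C hC => ⟨C, hC, Set.subset_union_right⟩)
  apply hB
  rw [← heq]
  exact ⟨∅, J0_empty, Set.subset_union_left⟩

theorem sub_of_bb_le {S T S' T' : Finset X} (hd : Disjoint S' T')
    (h : bb S' T' \ bb S T ∈ J0) : S ⊆ S' ∧ T ⊆ T' := by
  constructor
  · intro x hx
    by_contra hx'
    have h1 : Disjoint S' (insert x T') := by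
      rw [Finset.disjoint_insert_right]
      exact ⟨hx', hd⟩
    apply cand_J0.avoid _ _ h1
    apply cand_J0.sub _ h
    intro n hn
    refine ⟨bb_mono subset_rfl (Finset.subset_insert _ _) hn, fun hn' => ?_⟩
    exact hn.2 x (Finset.mem_insert_self _ _) (hn'.1 x hx)
  · intro x hx
    by_contra hx'
    have h1 : Disjoint (insert x S') T' := by
      rw [Finset.disjoint_insert_left]
      exact ⟨hx', hd⟩
    apply cand_J0.avoid _ _ h1
    apply cand_J0.sub _ h
    intro n hn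
    refine ⟨bb_mono (Finset.subset_insert _ _) subset_rfl hn, fun hn' => ?_⟩
    exact hn'.2 x hx (hn.1 x (Finset.mem_insert_self _ _))

/-! ### Supports -/

open Classical in
/-- `Z` supports `B`: whenever `bb S T` is below `B` modulo `J0`, so is the combination restricted
to the indices in `Z`. -/
def Sup (B : Set ℕ) (Z : Set X) : Prop :=
  ∀ S T : Finset X, Disjoint S T → bb S T \ B ∈ J0 →
    bb (S.filter (· ∈ Z)) (T.filter (· ∈ Z)) \ B ∈ J0

theorem Sup.mono {B : Set ℕ} {Z Z' : Set X} (h : Sup B Z) (hZ : Z ⊆ Z') : Sup B Z' := by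
  classical
  intro S T hd hST
  apply cand_J0.sub _ (h S T hd hST)
  rintro n ⟨hn, hnB⟩
  refine ⟨bb_mono ?_ ?_ hn, hnB⟩
  · intro x hx
    rw [Finset.mem_filter] at hx ⊢
    exact ⟨hx.1, hZ hx.2⟩
  · intro x hx
    rw [Finset.mem_filter] at hx ⊢
    exact ⟨hx.1, hZ hx.2⟩

theorem Sup.inter {B B' : Set ℕ} {Z : Set X} (h : Sup B Z) (h' : Sup B' Z) : Sup (B ∩ B') Z := by
  intro S T hd hST
  have h1 := h S T hd (cand_J0.sub _ hST _ fun n hn => ⟨hn.1, fun h => hn.2 h.1⟩)
  have h2 := h' S T hd (cand_J0.sub _ hST _ fun n hn => ⟨hn.1, fun h => hn.2 h.2⟩)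
  apply cand_J0.sub _ (cand_J0.un _ h1 _ h2)
  rintro n ⟨hn, hnB⟩
  by_cases hB : n ∈ B
  · exact Or.inr ⟨hn, fun hB' => hnB ⟨hB, hB'⟩⟩
  · exact Or.inl ⟨hn, hB⟩

theorem exists_sup (B : Set ℕ) : ∃ Z : Set X, Z.Countable ∧ Sup B Z := by
  classical
  -- a maximal antichain of combinations almost disjoint from `B`
  let N : Set (Finset X × Finset X) := {p | Disjoint p.1 p.2 ∧ bb p.1 p.2 ∩ B ∈ J0}
  obtain ⟨A, -, hA⟩ := zorn_subset_nonempty
    {A : Set (Finset X × Finset X) | A ⊆ N ∧ ∀ p ∈ A, ∀ p' ∈ A, p ≠ p' → ¬ Compat p p'} (by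
    intro c hc hchain hne
    refine ⟨⋃₀ c, ⟨Set.sUnion_subset fun A hA => (hc hA).1, ?_⟩,
      fun s hs => Set.subset_sUnion_of_mem hs⟩
    rintro p ⟨A, hA, hp⟩ p' ⟨A', hA', hp'⟩ hne'
    rcases hchain.total hA hA' with h | h
    · exact (hc hA').2 p (h hp) p' hp' hne'
    · exact (hc hA).2 p hp p' (h hp') hne') ∅ ⟨Set.empty_subset _, by simp⟩
  obtain ⟨hAN, hAA⟩ := hA.prop
  have hcount : A.Countable := antichain_countable (fun p hp => (hAN hp).1) hAA
  refine ⟨⋃ p ∈ A, ((p.1 ∪ p.2 : Finset X) : Set X),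
    hcount.biUnion fun p _ => (Finset.countable_toSet _), ?_⟩
  set Z : Set X := ⋃ p ∈ A, ((p.1 ∪ p.2 : Finset X) : Set X) with hZ
  have hAZ : ∀ p ∈ A, ∀ x ∈ p.1 ∪ p.2, x ∈ Z := fun p hp x hx =>
    Set.mem_iUnion₂.2 ⟨p, hp, hx⟩
  intro S T hd hST
  by_contra hcon
  set S₁ := S.filter (· ∈ Z) with hS₁
  set T₁ := T.filter (· ∈ Z) with hT₁
  obtain ⟨S', T', hd', hle⟩ := J0_dense hcon
  have hle1 : bb S' T' \ bb S₁ T₁ ∈ J0 :=
    cand_J0.sub _ hle _ fun n hn => ⟨hn.1, fun h => hn.2 h.1⟩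
  have hle2 : bb S' T' ∩ B ∈ J0 :=
    cand_J0.sub _ hle _ fun n hn => ⟨hn.1, fun h => h.2 hn.2⟩
  obtain ⟨hsS, hsT⟩ := sub_of_bb_le hd' hle1
  -- an element of the antichain compatible with `(S', T')`
  obtain ⟨a, haA, hac⟩ : ∃ a ∈ A, Compat a (S', T') := by
    by_contra hnone
    push Not at hnone
    have hins : insert (S', T') A ∈ {A : Set (Finset X × Finset X) |
        A ⊆ N ∧ ∀ p ∈ A, ∀ p' ∈ A, p ≠ p' → ¬ Compat p p'} := by
      refine ⟨Set.insert_subset ⟨hd', hle2⟩ hAN, ?_⟩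
      rintro p (rfl | hp) p' (rfl | hp') hne
      · exact absurd rfl hne
      · intro h
        apply hnone p' hp'
        unfold Compat at h ⊢
        rwa [Finset.union_comm, Finset.union_comm p'.2]
      · exact hnone p hp
      · exact hAA p hp p' hp' hne
    have heq := hA.eq_of_subset hins (Set.subset_insert _ _)
    have hmem : (S', T') ∈ A := by
      rw [heq]; exact Set.mem_insert _ _
    apply hnone _ hmem
    unfold Compat
    simpa using hd'
  -- `a` is compatible with `(S, T)`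
  have hdisj : Disjoint (S ∪ a.1) (T ∪ a.2) := by
    have hac' : Disjoint (a.1 ∪ S') (a.2 ∪ T') := hac
    rw [Finset.disjoint_left]
    intro x hx hx'
    rcases Finset.mem_union.1 hx with h | h <;> rcases Finset.mem_union.1 hx' with h' | h'
    · exact Finset.disjoint_left.1 hd h h'
    · have hxZ : x ∈ Z := hAZ a haA x (Finset.mem_union_right _ h')
      have h1 : x ∈ S' := hsS (Finset.mem_filter.2 ⟨h, hxZ⟩)
      exact Finset.disjoint_left.1 hac' (Finset.mem_union_right _ h1)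
        (Finset.mem_union_left _ h')
    · have hxZ : x ∈ Z := hAZ a haA x (Finset.mem_union_left _ h)
      have h1 : x ∈ T' := hsT (Finset.mem_filter.2 ⟨h', hxZ⟩)
      exact Finset.disjoint_left.1 hac' (Finset.mem_union_left _ h)
        (Finset.mem_union_right _ h1)
    · exact Finset.disjoint_left.1 (hAN haA).1 h h'
  apply cand_J0.avoid _ _ hdisj
  apply cand_J0.sub _ (cand_J0.un _ hST _ (hAN haA).2)
  rw [bb_union]
  rintro n ⟨hn1, hn2⟩
  by_cases hB : n ∈ B
  · exact Or.inr ⟨hn2, hB⟩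
  · exact Or.inl ⟨hn1, hB⟩

/-- A positive set with support `Z` meets the combinations over indices outside `Z`. -/
theorem pos_of_sup {B : Set ℕ} {Z : Set X} (hB : B ∉ J0) (hZ : Sup B Z) {S : Finset X}
    (hS : ∀ x ∈ S, x ∉ Z) : B ∩ bb S ∅ ∉ J0 := by
  classical
  obtain ⟨S', T', hd, hle⟩ := J0_dense hB
  have h1 := hZ S' T' hd hle
  intro hJ
  have h2 : Disjoint (S'.filter (· ∈ Z) ∪ S) (T'.filter (· ∈ Z) ∪ ∅) := by
    rw [Finset.union_empty, Finset.disjoint_union_left]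
    refine ⟨hd.mono (Finset.filter_subset _ _) (Finset.filter_subset _ _), ?_⟩
    rw [Finset.disjoint_left]
    intro x hx hx'
    exact hS x hx (Finset.mem_filter.1 hx').2
  apply cand_J0.avoid _ _ h2
  apply cand_J0.sub _ (cand_J0.un _ h1 _ hJ)
  rw [bb_union]
  rintro n ⟨hn1, hn2⟩
  by_cases hnB : n ∈ B
  · exact Or.inr ⟨hnB, hn2⟩
  · exact Or.inl ⟨hn1, hnB⟩

/-! ### The ultrafilters -/

/-- The filter dual to `J0` together with the complements of the `E x`. -/
noncomputable def qf : Filter ℕ where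
  sets := {B | ∃ T : Finset X, bb ∅ T \ B ∈ J0}
  univ_sets := ⟨∅, by
    rw [Set.sdiff_eq_empty.2 (Set.subset_univ _)]
    exact J0_empty⟩
  sets_of_superset := by
    rintro B C ⟨T, hT⟩ hBC
    exact ⟨T, cand_J0.sub _ hT _ fun n hn => ⟨hn.1, fun h => hn.2 (hBC h)⟩⟩
  inter_sets := by
    rintro B C ⟨T, hT⟩ ⟨T', hT'⟩
    refine ⟨T ∪ T', cand_J0.sub _ (cand_J0.un _ hT _ hT') _ ?_⟩
    rintro n ⟨hn, hnBC⟩
    by_cases hB : n ∈ B
    · exact Or.inr ⟨bb_mono subset_rfl Finset.subset_union_right hn, fun hC => hnBC ⟨hB, hC⟩⟩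
    · exact Or.inl ⟨bb_mono subset_rfl Finset.subset_union_left hn, hB⟩

theorem qf_neBot : qf.NeBot := by
  rw [Filter.neBot_iff]
  intro h
  have h1 : (∅ : Set ℕ) ∈ qf := by rw [h]; exact Filter.mem_bot
  obtain ⟨T, hT⟩ := h1
  rw [Set.sdiff_empty] at hT
  exact cand_J0.avoid ∅ T (Finset.disjoint_empty_left _) hT

/-- The ultrafilter `q`. -/
noncomputable def q : Ultrafilter ℕ := haveI := qf_neBot; Ultrafilter.of qf

theorem q_le : (q : Filter ℕ) ≤ qf := by
  haveI := qf_neBot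
  exact Ultrafilter.of_le qf

theorem compl_E_mem_q (x : X) : (E x)ᶜ ∈ q := by
  apply q_le
  refine ⟨{x}, ?_⟩
  have : bb ∅ {x} \ (E x)ᶜ = ∅ := by
    ext n
    simp only [Set.mem_sdiff, Set.mem_compl_iff, not_not, Set.mem_empty_iff_false, iff_false,
      not_and]
    intro hn
    exact hn.2 x (Finset.mem_singleton_self x)
  rw [this]
  exact J0_empty

theorem compl_mem_q_of_J0 {B : Set ℕ} (hB : B ∈ J0) : Bᶜ ∈ q := by
  apply q_le
  refine ⟨∅, cand_J0.sub _ hB _ ?_⟩
  rintro n ⟨-, hn⟩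
  by_contra h
  exact hn h

theorem notMem_J0_of_mem_q {B : Set ℕ} (hB : B ∈ q) : B ∉ J0 := by
  intro h
  have h1 := Filter.inter_mem hB (compl_mem_q_of_J0 h)
  rw [Set.inter_compl_self] at h1
  exact q.empty_notMem h1

/-- For a set `Y` of indices, the filter generated by the members of `q` with support disjoint
from `Y`, the `E x` for `x ∈ Y`, and the dual of `J0`. -/
noncomputable def qYf (Y : Set X) : Filter ℕ where
  sets := {B | ∃ C ∈ q, ∃ Z : Set X, Sup C Z ∧ Disjoint Z Y ∧ ∃ S : Finset X, (∀ x ∈ S, x ∈ Y) ∧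
    (C ∩ bb S ∅) \ B ∈ J0}
  univ_sets := ⟨Set.univ, Filter.univ_mem, ∅, by
    intro S T _ _
    rw [Set.sdiff_eq_empty.2 (Set.subset_univ _)]
    exact J0_empty, Set.empty_disjoint _, ∅, by simp, by
    rw [Set.sdiff_eq_empty.2 (Set.subset_univ _)]
    exact J0_empty⟩
  sets_of_superset := by
    rintro B B' ⟨C, hC, Z, hZ, hd, S, hS, hJ⟩ hBB'
    exact ⟨C, hC, Z, hZ, hd, S, hS,
      cand_J0.sub _ hJ _ fun n hn => ⟨hn.1, fun h => hn.2 (hBB' h)⟩⟩
  inter_sets := by
    classical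
    rintro B B' ⟨C, hC, Z, hZ, hd, S, hS, hJ⟩ ⟨C', hC', Z', hZ', hd', S', hS', hJ'⟩
    refine ⟨C ∩ C', Filter.inter_mem hC hC', Z ∪ Z',
      (hZ.mono Set.subset_union_left).inter (hZ'.mono Set.subset_union_right),
      Set.disjoint_union_left.2 ⟨hd, hd'⟩, S ∪ S', ?_, ?_⟩
    · intro x hx
      rcases Finset.mem_union.1 hx with h | h
      · exact hS x h
      · exact hS' x h
    · apply cand_J0.sub _ (cand_J0.un _ hJ _ hJ')
      rintro n ⟨⟨hn1, hn2⟩, hn3⟩
      by_cases hB : n ∈ B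
      · exact Or.inr ⟨⟨hn1.2, bb_mono Finset.subset_union_right subset_rfl hn2⟩,
          fun h => hn3 ⟨hB, h⟩⟩
      · exact Or.inl ⟨⟨hn1.1, bb_mono Finset.subset_union_left subset_rfl hn2⟩, hB⟩

theorem qYf_neBot (Y : Set X) : (qYf Y).NeBot := by
  rw [Filter.neBot_iff]
  intro h
  have h1 : (∅ : Set ℕ) ∈ qYf Y := by rw [h]; exact Filter.mem_bot
  obtain ⟨C, hC, Z, hZ, hd, S, hS, hJ⟩ := h1
  rw [Set.sdiff_empty] at hJ
  exact pos_of_sup (notMem_J0_of_mem_q hC) hZ
    (fun x hx hxZ => Set.disjoint_left.1 hd hxZ (hS x hx)) hJ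

/-- The ultrafilters `q_Y`. -/
noncomputable def qY (Y : Set X) : Ultrafilter ℕ := haveI := qYf_neBot Y; Ultrafilter.of (qYf Y)

theorem qY_le (Y : Set X) : (qY Y : Filter ℕ) ≤ qYf Y := by
  haveI := qYf_neBot Y
  exact Ultrafilter.of_le (qYf Y)

theorem mem_qY_of_sup {Y : Set X} {C : Set ℕ} (hC : C ∈ q) {Z : Set X} (hZ : Sup C Z)
    (hd : Disjoint Z Y) : C ∈ qY Y := by
  apply qY_le
  refine ⟨C, hC, Z, hZ, hd, ∅, by simp, cand_J0.sub _ J0_empty _ ?_⟩
  rintro n ⟨⟨hn, -⟩, hn'⟩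
  exact hn' hn

theorem E_mem_qY {Y : Set X} {x : X} (hx : x ∈ Y) : E x ∈ qY Y := by
  apply qY_le
  refine ⟨Set.univ, Filter.univ_mem, ∅, ?_, Set.empty_disjoint _, {x}, by simpa using hx,
    cand_J0.sub _ J0_empty _ ?_⟩
  · intro S T _ _
    rw [Set.sdiff_eq_empty.2 (Set.subset_univ _)]
    exact J0_empty
  · rintro n ⟨⟨-, hn⟩, hn'⟩
    exact hn' (hn.1 x (Finset.mem_singleton_self x))

theorem compl_mem_qY_of_J0 {Y : Set X} {B : Set ℕ} (hB : B ∈ J0) : Bᶜ ∈ qY Y := by
  apply qY_le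
  refine ⟨Set.univ, Filter.univ_mem, ∅, ?_, Set.empty_disjoint _, ∅, by simp,
    cand_J0.sub _ hB _ ?_⟩
  · intro S T _ _
    rw [Set.sdiff_eq_empty.2 (Set.subset_univ _)]
    exact J0_empty
  · rintro n ⟨-, hn⟩
    by_contra h
    exact hn h

/-! ### The well-order of type `ω₁` -/

/-- A well-order of type `ω₁`. -/
abbrev Ω : Type := (ℵ₁ : Cardinal.{0}).ord.ToType

theorem mk_Ω : #Ω = ℵ₁ := by simp

theorem Ω_Iio_countable (a : Ω) : (Set.Iio a).Countable := by
  rw [← le_aleph0_iff_set_countable]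
  have h : #(Set.Iio a) < ℵ₁ := Cardinal.mk_Iio_toType_ord_lt a
  by_contra hcon
  have h1 : Order.succ ℵ₀ ≤ #(Set.Iio a) := Order.succ_le_of_lt (not_le.1 hcon)
  rw [succ_aleph0] at h1
  exact absurd h (not_lt.2 h1)

/-- Countable sets of indices are bounded. -/
theorem exists_bound {s : Set Ω} (hs : s.Countable) : ∃ a : Ω, ∀ b ∈ s, b < a := by
  have h1 : (⋃ b ∈ s, Set.Iic b).Countable := by
    apply hs.biUnion
    intro b _
    rw [← Set.Iio_insert]
    exact (Ω_Iio_countable b).insert b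
  have h2 : ∃ a : Ω, a ∉ ⋃ b ∈ s, Set.Iic b := by
    by_contra hcon
    push Not at hcon
    have h3 : (Set.univ : Set Ω).Countable := h1.mono fun a _ => hcon a
    rw [← le_aleph0_iff_set_countable, mk_univ, mk_Ω] at h3
    exact absurd h3 (not_le.2 aleph0_lt_aleph_one)
  obtain ⟨a, ha⟩ := h2
  refine ⟨a, fun b hb => ?_⟩
  by_contra hlt
  exact ha (Set.mem_iUnion₂.2 ⟨b, hb, not_lt.1 hlt⟩)

theorem exists_emb : ∃ w : Ω → X, Function.Injective w := by
  have hX : #X = 𝔠 := by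
    show #(ℕ → ℕ) = 𝔠
    simp
  have h : #Ω ≤ #X := by
    rw [mk_Ω, hX]
    exact aleph_one_le_continuum
  obtain ⟨w⟩ := h
  exact ⟨w, w.injective⟩

/-- The embedding of `ω₁` in the index set. -/
noncomputable def w : Ω → X := exists_emb.choose

theorem w_injective : Function.Injective w := exists_emb.choose_spec

/-- The indices from `a` on. -/
def W (a : Ω) : Set X := w '' Set.Ici a

/-! ### The ideals -/

/-- The maximal ideal. -/
def I : Set (Set ℕ) := {A | Aᶜ ∈ q}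

/-- The subideal. -/
def Jd : Set (Set ℕ) := {A | ∀ a : Ω, Aᶜ ∈ qY (W a)}

theorem exists_tail {B : Set ℕ} : ∃ (Z : Set X) (a : Ω), Z.Countable ∧ Sup B Z ∧
    ∀ b, a ≤ b → Disjoint Z (W b) := by
  obtain ⟨Z, hZ, hs⟩ := exists_sup B
  have h1 : (w ⁻¹' Z).Countable := hZ.preimage_of_injOn w_injective.injOn
  obtain ⟨a, ha⟩ := exists_bound h1
  refine ⟨Z, a, hZ, hs, fun b hab => ?_⟩
  rw [Set.disjoint_left]
  rintro x hx ⟨c, hc, rfl⟩
  have h2 := ha c hx
  have h3 : b ≤ c := hc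
  exact absurd (hab.trans h3) (not_le.2 h2)

theorem Jd_subset_I : Jd ⊆ I := by
  intro A hA
  by_contra hAI
  have h1 : A ∈ q := by
    have h2 : Aᶜ ∉ q := hAI
    exact Ultrafilter.compl_notMem_iff.1 h2
  obtain ⟨Z, a, -, hs, hd⟩ := exists_tail (B := A)
  have h2 := mem_qY_of_sup h1 hs (hd a le_rfl)
  have h3 := Filter.inter_mem h2 (hA a)
  rw [Set.inter_compl_self] at h3
  exact (qY (W a)).empty_notMem h3

theorem E_mem_I (x : X) : E x ∈ I := compl_E_mem_q x

/-- The sets `E (w a)` are cofinal modulo the subideal. -/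
theorem cofinal_E {A : Set ℕ} (hA : A ∈ I) : ∃ a : Ω, A \ E (w a) ∈ Jd := by
  obtain ⟨Z, a, -, hs, hd⟩ := exists_tail (B := Aᶜ)
  refine ⟨a, fun b => ?_⟩
  rcases le_total a b with h | h
  · have h1 : Aᶜ ∈ qY (W b) := mem_qY_of_sup hA hs (hd b h)
    apply Filter.mem_of_superset h1
    intro n hn hn'
    exact hn hn'.1
  · have h1 : E (w a) ∈ qY (W b) := E_mem_qY ⟨a, h, rfl⟩
    apply Filter.mem_of_superset h1
    intro n hn hn'
    exact hn'.2 hn

/-- No countable family is cofinal modulo the subideal. -/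
theorem not_countable_cofinal {𝒜 : Set (Set ℕ)} (h𝒜 : 𝒜 ⊆ I) (hc : 𝒜.Countable) :
    ∃ A ∈ I, ∀ B ∈ 𝒜, A \ B ∉ Jd := by
  choose Z a hZ hs hd using fun B : Set ℕ => exists_tail (B := Bᶜ)
  obtain ⟨c, hcb⟩ := exists_bound (hc.image a)
  refine ⟨E (w c), E_mem_I _, fun B hB hJ => ?_⟩
  have h1 : E (w c) ∈ qY (W c) := E_mem_qY ⟨c, Set.mem_Ici.2 le_rfl, rfl⟩
  have h2 : Bᶜ ∈ qY (W c) :=
    mem_qY_of_sup (h𝒜 hB) (hs B) (hd B c (hcb _ ⟨B, hB, rfl⟩).le)
  have h3 := Filter.inter_mem (Filter.inter_mem h1 h2) (hJ c)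
  have h4 : E (w c) ∩ Bᶜ ∩ (E (w c) \ B)ᶜ = ∅ := by
    ext n
    simp only [Set.mem_inter_iff, Set.mem_compl_iff, Set.mem_sdiff, Set.mem_empty_iff_false,
      iff_false]
    tauto
  rw [h4] at h3
  exact (qY (W c)).empty_notMem h3

/-- Only countably many of the sets `E x` are below a given member of the maximal ideal. -/
theorem countable_below {B : Set ℕ} (hB : B ∈ I) : {x : X | E x ⊆ B}.Countable := by
  classical
  obtain ⟨Z, hZ, hs⟩ := exists_sup Bᶜ
  apply hZ.mono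
  intro x hx
  by_contra hxZ
  have h1 := pos_of_sup (notMem_J0_of_mem_q hB) hs (S := {x}) (by
    intro y hy
    rw [Finset.mem_singleton.1 hy]
    exact hxZ)
  apply h1
  have h2 : Bᶜ ∩ bb {x} ∅ = ∅ := by
    ext n
    simp only [Set.mem_inter_iff, Set.mem_compl_iff, Set.mem_empty_iff_false, iff_false, not_and]
    intro hn hn'
    exact hn (hx (hn'.1 x (Finset.mem_singleton_self x)))
  rw [h2]
  exact J0_empty

end Pool.Agent.X215.RelCof
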